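import Mathlib

set_option autoImplicit false

/-!
Partial homomorphisms on large finite subsets of a finitely presented group extend.
-/

namespace Pool.Agent.H51MB

open FreeGroup (of toWord)

theorem key {n : ℕ} {H E : Type*} [Group H] [Group E] (φ : FreeGroup (Fin n) →* H) (f : H → E)
    (B : Finset H) (h1 : (1 : H) ∈ B) (hg : ∀ i, φ (of i) ∈ B) (hg' : ∀ i, (φ (of i))⁻¹ ∈ B)
    (hf : ∀ x ∈ B, ∀ y ∈ B, x * y ∈ B → f (x * y) = f x * f y)
    (L : List (Fin n × Bool)) :
    (∀ L', L' <+: L → φ (FreeGroup.mk L') ∈ B) →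
    f (φ (FreeGroup.mk L)) = FreeGroup.lift (fun i => f (φ (of i))) (FreeGroup.mk L) := by
  have hf1 : f 1 = 1 := by
    have := hf 1 h1 1 h1 (by rwa [one_mul])
    rw [one_mul] at this
    exact (mul_eq_left.1 this.symm)
  have hinv : ∀ i, f (φ (of i))⁻¹ = (f (φ (of i)))⁻¹ := by
    intro i
    have := hf _ (hg i) _ (hg' i) (by rwa [mul_inv_cancel])
    rw [mul_inv_cancel, hf1] at this
    exact (inv_eq_of_mul_eq_one_right this.symm).symm
  induction L using List.reverseRecOn with
  | nil =>
    intro _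
    have h2 : (FreeGroup.mk ([] : List (Fin n × Bool))) = 1 := rfl
    rw [h2, map_one, map_one, hf1]
  | append_singleton L c ih =>
    intro hL
    have h2 : FreeGroup.mk (L ++ [c]) = FreeGroup.mk L * FreeGroup.mk [c] := by
      rw [FreeGroup.mul_mk]
    have h3 := ih (fun L' hL' => hL L' (hL'.trans (List.prefix_append L [c])))
    have h4 : φ (FreeGroup.mk L) ∈ B := hL L (List.prefix_append L [c])
    have h5 : φ (FreeGroup.mk L) * φ (FreeGroup.mk [c]) ∈ B := by
      rw [← map_mul, ← h2]
      exact hL _ (List.prefix_refl _)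
    have h6 : φ (FreeGroup.mk [c]) ∈ B ∧ f (φ (FreeGroup.mk [c])) =
        FreeGroup.lift (fun i => f (φ (of i))) (FreeGroup.mk [c]) := by
      obtain ⟨i, b⟩ := c
      cases b with
      | true =>
        have e : FreeGroup.mk [(i, true)] = of i := rfl
        rw [e, FreeGroup.lift_apply_of]
        exact ⟨hg i, rfl⟩
      | false =>
        have e : FreeGroup.mk [(i, false)] = (of i)⁻¹ := by
          rw [FreeGroup.of, FreeGroup.inv_mk]
          rfl
        rw [e, map_inv, map_inv, FreeGroup.lift_apply_of]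
        exact ⟨hg' i, hinv i⟩
    rw [h2, map_mul, map_mul, hf _ h4 _ h6.1 h5, h3, h6.2]

/-- partial homomorphisms on large finite sets extend -/
theorem extend {H : Type*} [Group H] (hH : Group.IsFinitelyPresented H) (A : Finset H) :
    ∃ B : Finset H, A ⊆ B ∧ (1 : H) ∈ B ∧ ∀ (E : Type*) [Group E] (f : H → E),
      (∀ x ∈ B, ∀ y ∈ B, x * y ∈ B → f (x * y) = f x * f y) →
      ∃ ψ : H →* E, ∀ a ∈ A, ψ a = f a := by
  classical
  obtain ⟨n, φ, hφ, S, hS, hSk⟩ := hH.out
  let g : H → FreeGroup (Fin n) := Function.surjInv hφ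
  have hgφ : ∀ a, φ (g a) = a := Function.surjInv_eq hφ
  let W : Finset (List (Fin n × Bool)) := hS.toFinset.image toWord ∪ A.image (fun a => (g a).toWord)
  let P : List (Fin n × Bool) → Finset H := fun L =>
    (L.inits.map (fun L' => φ (FreeGroup.mk L'))).toFinset
  let B : Finset H := insert 1 ((Finset.univ.image (fun i => φ (of i))) ∪
    (Finset.univ.image (fun i => (φ (of i))⁻¹)) ∪ W.biUnion P)
  have hW : ∀ L ∈ W, ∀ L', L' <+: L → φ (FreeGroup.mk L') ∈ B := by
    intro L hL L' hL'
    apply Finset.mem_insert_of_mem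
    apply Finset.mem_union_right
    rw [Finset.mem_biUnion]
    refine ⟨L, hL, ?_⟩
    rw [List.mem_toFinset, List.mem_map]
    exact ⟨L', (List.mem_inits _ _).2 hL', rfl⟩
  have h1 : (1 : H) ∈ B := Finset.mem_insert_self _ _
  have hg1 : ∀ i, φ (of i) ∈ B := fun i => Finset.mem_insert_of_mem
    (Finset.mem_union_left _ (Finset.mem_union_left _ (Finset.mem_image_of_mem _ (Finset.mem_univ i))))
  have hg2 : ∀ i, (φ (of i))⁻¹ ∈ B := fun i => Finset.mem_insert_of_mem
    (Finset.mem_union_left _ (Finset.mem_union_right _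
      (Finset.mem_image_of_mem (fun i => (φ (of i))⁻¹) (Finset.mem_univ i))))
  refine ⟨B, ?_, h1, ?_⟩
  · intro a ha
    have h2 := hW (g a).toWord (Finset.mem_union_right _ (Finset.mem_image_of_mem _ ha)) _
      (List.prefix_refl _)
    rwa [FreeGroup.mk_toWord, hgφ] at h2
  · intro E _ f hf
    have hf1 : f 1 = 1 := by
      have := hf 1 h1 1 h1 (by rwa [one_mul])
      rw [one_mul] at this
      exact (mul_eq_left.1 this.symm)
    let ψ0 : FreeGroup (Fin n) →* E := FreeGroup.lift (fun i => f (φ (of i)))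
    have hk : ∀ w : FreeGroup (Fin n), w.toWord ∈ W → f (φ w) = ψ0 w := by
      intro w hw
      have h2 := key φ f B h1 hg1 hg2 hf w.toWord (hW _ hw)
      rwa [FreeGroup.mk_toWord] at h2
    have hker : φ.ker ≤ ψ0.ker := by
      rw [← hSk]
      apply Subgroup.normalClosure_le_normal
      intro s hs
      have h2 : φ s = 1 := by
        have : s ∈ φ.ker := by
          rw [← hSk]; exact Subgroup.subset_normalClosure hs
        exact this
      have h3 := hk s (Finset.mem_union_left _ (Finset.mem_image_of_mem _ (hS.mem_toFinset.2 hs)))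
      rw [h2, hf1] at h3
      exact h3.symm
    refine ⟨φ.liftOfRightInverse g hgφ ⟨ψ0, hker⟩, ?_⟩
    intro a ha
    have h2 := φ.liftOfRightInverse_comp_apply g hgφ ⟨ψ0, hker⟩ (g a)
    rw [hgφ] at h2
    rw [h2]
    have h3 := hk (g a) (Finset.mem_union_right _ (Finset.mem_image_of_mem (fun a => (g a).toWord) ha))
    rw [hgφ] at h3
    exact h3.symm

end Pool.Agent.H51MB
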