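import Pool.Agent.H96MB.Magnus

set_option autoImplicit false

namespace Pool.Agent.H51MB

open Pool.Agent.H96MB

/-- L1 -/
theorem magnus {Γ ι : Type*} [AddCommGroup Γ] (γ : ι → Γ) {H : Type*} [Group H]
    (A : Subgroup H) (hAn : A.Normal) (hA : ∀ x ∈ A, ∀ y ∈ A, x * y = y * x)
    (h : ι → H) (lift : Γ → H) (hl0 : lift 0 = 1)
    (hladd : ∀ s t, lift s * lift t * (lift (s + t))⁻¹ ∈ A)
    (hlγ : ∀ j, h j * (lift (γ j))⁻¹ ∈ A) :
    ∃ p : W Γ ι → H, (∀ x y, IsMg γ x → IsMg γ y → p (x * y) = p x * p y) ∧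
      ∀ j, p (E γ j) = h j := by
  classical
  let _ : CommGroup A :=
    { (inferInstance : Group A) with
      mul_comm := fun a b => Subtype.ext (hA a a.2 b b.2) }
  have hlam : ∀ p : Γ × ι, lift p.1 * h p.2 * (lift (p.1 + γ p.2))⁻¹ ∈ A := by
    intro p
    have h1 := hAn.conj_mem _ (hlγ p.2) (lift p.1)
    have h2 := hladd p.1 (γ p.2)
    have e : lift p.1 * h p.2 * (lift (p.1 + γ p.2))⁻¹
        = (lift p.1 * (h p.2 * (lift (γ p.2))⁻¹) * (lift p.1)⁻¹) *
          (lift p.1 * lift (γ p.2) * (lift (p.1 + γ p.2))⁻¹) := by group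
    rw [e]
    exact A.mul_mem h1 h2
  let lam : (Γ × ι →₀ ℤ) →+ Additive A :=
    Finsupp.liftAddHom (fun p => zmultiplesHom (Additive A) (Additive.ofMul ⟨_, hlam p⟩))
  have hlam1 : ∀ p, lam (Finsupp.single p 1) = Additive.ofMul ⟨_, hlam p⟩ := by
    intro p
    simp only [lam, Finsupp.liftAddHom_apply_single, zmultiplesHom_apply, one_smul]
  let Φ : Γ → (Γ →₀ ℤ) →+ Additive A := fun s =>
    Finsupp.liftAddHom (fun t => zmultiplesHom (Additive A) (Additive.ofMul ⟨_, hladd s t⟩))
  have hΦ1 : ∀ s t, Φ s (Finsupp.single t 1) = Additive.ofMul ⟨_, hladd s t⟩ := by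
    intro s t
    simp only [Φ, Finsupp.liftAddHom_apply_single, zmultiplesHom_apply, one_smul]
  have key : ∀ s : Γ, (MonoidHom.toAdditive (MulAut.conjNormal (lift s) : A ≃* A).toMonoidHom).comp lam
      = (lam.comp (shift s)) - (Φ s).comp (bd γ) := by
    intro s
    refine Finsupp.addHom_ext' fun p => AddMonoidHom.ext_int ?_
    obtain ⟨t, j⟩ := p
    simp only [AddMonoidHom.comp_apply, AddMonoidHom.sub_apply, Finsupp.singleAddHom_apply]
    have e1 : shift s (Finsupp.single (t, j) (1 : ℤ)) = Finsupp.single (s + t, j) 1 :=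
      shift_single s t j 1
    have e2 : bd γ (Finsupp.single (t, j) (1 : ℤ))
        = Finsupp.single (t + γ j) 1 - Finsupp.single t 1 := by
      simp [bd, Finsupp.mapDomain.addMonoidHom, Finsupp.mapDomain_single]
    rw [e1, e2, map_sub, hlam1, hlam1, hΦ1, hΦ1, sub_eq_add_neg, sub_eq_add_neg]
    apply Additive.toMul.injective
    apply Subtype.ext
    show lift s * (lift t * h j * (lift (t + γ j))⁻¹) * (lift s)⁻¹
      = (lift (s + t) * h j * (lift (s + t + γ j))⁻¹) *
        ((lift s * lift (t + γ j) * (lift (s + (t + γ j)))⁻¹) *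
          (lift s * lift t * (lift (s + t))⁻¹)⁻¹)⁻¹
    have c1 := hA _ (hlam (s + t, j)) _ (hladd s t)
    simp only at c1
    have e3 : (lift (s + t) * h j * (lift (s + t + γ j))⁻¹) *
        ((lift s * lift (t + γ j) * (lift (s + (t + γ j)))⁻¹) *
          (lift s * lift t * (lift (s + t))⁻¹)⁻¹)⁻¹
        = ((lift (s + t) * h j * (lift (s + t + γ j))⁻¹) * (lift s * lift t * (lift (s + t))⁻¹)) *
          (lift s * lift (t + γ j) * (lift (s + (t + γ j)))⁻¹)⁻¹ := by group
    rw [e3, c1, ← add_assoc]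
    group
  let F : (Γ × ι →₀ ℤ) → H := fun m => ((Additive.toMul (lam m) : A) : H)
  have hFadd : ∀ m m', F (m + m') = F m * F m' := by
    intro m m'
    show ((Additive.toMul (lam (m + m')) : A) : H) = _
    rw [map_add]
    rfl
  have hFkey : ∀ s m, lift s * F m * (lift s)⁻¹
      = F (shift s m) * ((Additive.toMul (Φ s (bd γ m)) : A) : H)⁻¹ := by
    intro s m
    have h1 := DFunLike.congr_fun (key s) m
    have h2 := congrArg (fun a : Additive A => ((Additive.toMul a : A) : H)) h1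
    have h3 : ((Additive.toMul ((lam.comp (shift s) - (Φ s).comp (bd γ)) m) : A) : H)
        = F (shift s m) * ((Additive.toMul (Φ s (bd γ m)) : A) : H)⁻¹ := by
      rw [AddMonoidHom.sub_apply, sub_eq_add_neg]
      rfl
    rw [← h3]
    exact h2
  refine ⟨fun w => F w.m * lift w.t, ?_, ?_⟩
  · intro x y _ hy
    have h1 := hFkey x.t y.m
    have hbd : bd γ y.m = Finsupp.single y.t 1 - Finsupp.single 0 1 := hy
    have h2 : ((Additive.toMul (Φ x.t (bd γ y.m)) : A) : H)
        = lift x.t * lift y.t * (lift (x.t + y.t))⁻¹ := by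
      rw [hbd, map_sub, hΦ1, hΦ1, sub_eq_add_neg]
      show (lift x.t * lift y.t * (lift (x.t + y.t))⁻¹) *
        (lift x.t * lift 0 * (lift (x.t + 0))⁻¹)⁻¹ = _
      rw [hl0, add_zero]
      group
    rw [h2] at h1
    show F (x.m + shift x.t y.m) * lift (x.t + y.t) = (F x.m * lift x.t) * (F y.m * lift y.t)
    rw [hFadd]
    have h3 : (F x.m * lift x.t) * (F y.m * lift y.t)
        = F x.m * (lift x.t * F y.m * (lift x.t)⁻¹) * (lift x.t * lift y.t) := by group
    rw [h3, h1]
    group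
  · intro j
    show F (Finsupp.single (0, j) 1) * lift (γ j) = h j
    have e : F (Finsupp.single (0, j) 1) = lift 0 * h j * (lift (0 + γ j))⁻¹ := by
      show ((Additive.toMul (lam (Finsupp.single (0, j) 1)) : A) : H) = _
      rw [hlam1]
      rfl
    rw [e, hl0, zero_add]
    group

end Pool.Agent.H51MB
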