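import Pool.Agent.H18PC.PC

set_option autoImplicit false

namespace Pool.Agent.H51MB

open Pool.Agent.H18PC

variable {M : Type*} [Group M]

theorem conj_mem (as : List M) (h : M) :
    ∀ x : M, x ∈ conjProd as → h * x * h⁻¹ ∈ conjProd as := by
  induction as with
  | nil =>
    intro x hx
    have hx1 : x = 1 := hx
    subst hx1
    show h * 1 * h⁻¹ ∈ ({1} : Set M)
    simp
  | cons a as ih =>
    rintro x ⟨g, z, hz, rfl⟩
    exact ⟨h * g, h * z * h⁻¹, ih z hz, by group⟩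

theorem split (as : List M) (a : M) (ha : a ∈ as) :
    ∀ x : M, x ∈ conjProd as →
    ∃ P g R, x = P * (g * a * g⁻¹) * R ∧ ∀ g', P * (g' * a * g'⁻¹) * R ∈ conjProd as := by
  induction as with
  | nil => simp at ha
  | cons b as ih =>
    rintro x ⟨g, z, hz, rfl⟩
    rcases List.mem_cons.1 ha with rfl | ha
    · exact ⟨1, g, z, by group, fun g' => ⟨g', z, hz, by group⟩⟩
    · obtain ⟨P, g1, R, rfl, h⟩ := ih ha z hz
      exact ⟨g * b * g⁻¹ * P, g1, R, by group, fun g' => ⟨g, _, h g', by group⟩⟩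

/-- the stabiliser -/
def Qs (as : List M) : Subgroup M where
  carrier := {z | ∀ x, z * x ∈ conjProd as ↔ x ∈ conjProd as}
  one_mem' := by intro x; rw [one_mul]
  mul_mem' := by
    intro a b ha hb x
    rw [mul_assoc, ha, hb]
  inv_mem' := by
    intro a ha x
    rw [← ha, mul_inv_cancel_left]

instance (as : List M) : (Qs as).Normal := by
  constructor
  intro z hz h x
  have e : h * z * h⁻¹ * x = h * (z * (h⁻¹ * x * h⁻¹⁻¹)) * h⁻¹ := by group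
  constructor
  · intro hx
    have h1 := conj_mem as h⁻¹ _ hx
    have e1 : h⁻¹ * (h * z * h⁻¹ * x) * h⁻¹⁻¹ = z * (h⁻¹ * x * h) := by group
    rw [e1, hz] at h1
    have h2 := conj_mem as h _ h1
    have e2 : h * (h⁻¹ * x * h) * h⁻¹ = x := by group
    rwa [e2] at h2
  · intro hx
    rw [e]
    exact conj_mem as h _ ((hz _).2 (conj_mem as h⁻¹ _ hx))

theorem mem_Qs_of {as : List M} {z : M} (h1 : ∀ x ∈ conjProd as, z * x ∈ conjProd as)
    (h2 : ∀ x ∈ conjProd as, z⁻¹ * x ∈ conjProd as) : z ∈ Qs as := by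
  intro x
  refine ⟨fun hx => ?_, fun hx => h1 x hx⟩
  have := h2 _ hx
  rwa [inv_mul_cancel_left] at this

section
variable (M0 : Subgroup M) (hn : M0.Normal)
    (hM0 : ∀ x ∈ M0, ∀ y ∈ M0, x * y = y * x) (hab : ∀ x y : M, x * y * x⁻¹ * y⁻¹ ∈ M0)

include hn hM0 hab in
theorem step_two {as : List M} {a : M} (ha : a ∈ as) {m : M} (hm : m ∈ M0) :
    ∀ x ∈ conjProd as, (a * m * a⁻¹ * m⁻¹) * x ∈ conjProd as := by
  intro x hx
  obtain ⟨P, g, R, rfl, h⟩ := split as a ha x hx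
  set b := g * a * g⁻¹ with hb
  set m' := P⁻¹ * m * P with hm'
  have hm'M : m' ∈ M0 := by
    have := hn.conj_mem m hm P⁻¹
    rwa [inv_inv] at this
  set a1 := P⁻¹ * a * P with ha1
  have hc : b⁻¹ * a1 ∈ M0 := by
    have h1 := hab g a⁻¹
    have h2 := hab a⁻¹ P⁻¹
    have e : b⁻¹ * a1 = (g * a⁻¹ * g⁻¹ * a⁻¹⁻¹) * (a⁻¹ * P⁻¹ * a⁻¹⁻¹ * P⁻¹⁻¹) := by
      rw [hb, ha1]; group
    rw [e]
    exact M0.mul_mem h1 h2
  have e1 : a1 * m' * a1⁻¹ = b * m' * b⁻¹ := by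
    have h3 := hM0 _ hc _ hm'M
    have e : a1 * m' * a1⁻¹ = b * ((b⁻¹ * a1) * m') * (b⁻¹ * a1)⁻¹ * b⁻¹ := by group
    rw [e, h3]
    group
  have hbm : b * m' * b⁻¹ ∈ M0 := hn.conj_mem m' hm'M b
  have e2 := hM0 _ hbm _ (M0.inv_mem hm'M)
  have e3 : (a * m * a⁻¹ * m⁻¹) * (P * b * R)
      = P * ((m'⁻¹ * g) * a * (m'⁻¹ * g)⁻¹) * R := by
    calc (a * m * a⁻¹ * m⁻¹) * (P * b * R)
        = P * ((a1 * m' * a1⁻¹) * m'⁻¹) * b * R := by rw [ha1, hm']; group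
      _ = P * (m'⁻¹ * (b * m' * b⁻¹)) * b * R := by rw [e1, e2]
      _ = P * ((m'⁻¹ * g) * a * (m'⁻¹ * g)⁻¹) * R := by rw [hb]; group
  rw [e3]
  exact h _

include hn hM0 hab in
theorem step_two' {as : List M} {a : M} (ha : a ∈ as) {m : M} (hm : m ∈ M0) :
    a * m * a⁻¹ * m⁻¹ ∈ Qs as := by
  refine mem_Qs_of (step_two M0 hn hM0 hab ha hm) ?_
  have e : (a * m * a⁻¹ * m⁻¹)⁻¹ = a * m⁻¹ * a⁻¹ * m⁻¹⁻¹ := by
    have h1 := hM0 _ (hn.conj_mem m⁻¹ (M0.inv_mem hm) a) _ hm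
    have e1 : (a * m * a⁻¹ * m⁻¹)⁻¹ = m * (a * m⁻¹ * a⁻¹) := by group
    rw [e1, ← h1, inv_inv]
  rw [e]
  exact step_two M0 hn hM0 hab ha (M0.inv_mem hm)

theorem comm_aux {G : Type*} [Group G] {A B C1 C2 : G} (h1 : C1 * A = A * C1)
    (h3 : C1 * C2 = C2 * C1) (h5 : C2 * B = B * C2) :
    (B * C1) * (A * C2) * (B * C1)⁻¹ * (A * C2)⁻¹ = B * A * B⁻¹ * A⁻¹ := by
  have e1 : (B * C1) * (A * C2) = B * A * (C1 * C2) := by
    rw [mul_assoc B C1, ← mul_assoc C1 A, h1]; group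
  have e2 : (A * C2) * (B * C1) = A * B * (C1 * C2) := by
    rw [mul_assoc A C2, ← mul_assoc C2 B, h5, h3]; group
  have e3 : (B * C1) * (A * C2) * (B * C1)⁻¹ * (A * C2)⁻¹
      = ((B * C1) * (A * C2)) * ((A * C2) * (B * C1))⁻¹ := by group
  rw [e3, e1, e2]
  group

include hn hM0 hab in
theorem step_three {as : List M} {a b : M} (ha : a ∈ as) (hb : b ∈ as) :
    ∀ x ∈ conjProd as, (b * a * b⁻¹ * a⁻¹) * x ∈ conjProd as := by
  intro x hx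
  obtain ⟨P, g, R, rfl, h⟩ := split as a ha x hx
  let π : M →* M ⧸ Qs as := QuotientGroup.mk' (Qs as)
  have hπ : ∀ z : M, π z = 1 ↔ z ∈ Qs as := fun z => QuotientGroup.eq_one_iff z
  have hcomm : ∀ u v : M, u * v * u⁻¹ * v⁻¹ ∈ Qs as → π u * π v = π v * π u := by
    intro u v huv
    have h1 := (hπ _).2 huv
    simp only [map_mul, map_inv] at h1
    rwa [mul_inv_eq_one, mul_inv_eq_iff_eq_mul] at h1
  have hMa : ∀ m ∈ M0, ∀ a ∈ as, π m * π a = π a * π m := fun m hm a ha =>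
    (hcomm a m (step_two' M0 hn hM0 hab ha hm)).symm
  have hMM : ∀ m ∈ M0, ∀ m' ∈ M0, π m * π m' = π m' * π m := fun m hm m' hm' => by
    rw [← map_mul, hM0 m hm m' hm', map_mul]
  set c := g * a * g⁻¹ with hc
  have hc1 : b⁻¹ * (P⁻¹ * b * P) ∈ M0 := by
    have := hab b⁻¹ P⁻¹
    have e : b⁻¹ * (P⁻¹ * b * P) = b⁻¹ * P⁻¹ * b⁻¹⁻¹ * P⁻¹⁻¹ := by group
    rwa [e]
  have hc2 : a⁻¹ * (P⁻¹ * a * P) ∈ M0 := by
    have := hab a⁻¹ P⁻¹
    have e : a⁻¹ * (P⁻¹ * a * P) = a⁻¹ * P⁻¹ * a⁻¹⁻¹ * P⁻¹⁻¹ := by group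
    rwa [e]
  have hc3 : a⁻¹ * c ∈ M0 := by
    have := hab a⁻¹ g
    have e : a⁻¹ * c = a⁻¹ * g * a⁻¹⁻¹ * g⁻¹ := by rw [hc]; group
    rwa [e]
  have e1 : π (P⁻¹ * (b * a * b⁻¹ * a⁻¹) * P) = π b * π a * (π b)⁻¹ * (π a)⁻¹ := by
    have k : P⁻¹ * (b * a * b⁻¹ * a⁻¹) * P =
        (b * (b⁻¹ * (P⁻¹ * b * P))) * (a * (a⁻¹ * (P⁻¹ * a * P))) *
          (b * (b⁻¹ * (P⁻¹ * b * P)))⁻¹ * (a * (a⁻¹ * (P⁻¹ * a * P)))⁻¹ := by group
    rw [k]
    generalize b⁻¹ * (P⁻¹ * b * P) = C1 at hc1 ⊢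
    generalize a⁻¹ * (P⁻¹ * a * P) = C2 at hc2 ⊢
    simp only [map_mul, map_inv]
    exact comm_aux (hMa C1 hc1 a ha) (hMM C1 hc1 C2 hc2) (hMa C2 hc2 b hb)
  have e2 : π (b * c * b⁻¹ * c⁻¹) = π b * π a * (π b)⁻¹ * (π a)⁻¹ := by
    have k : b * c * b⁻¹ * c⁻¹ = (b * 1) * (a * (a⁻¹ * c)) * (b * 1)⁻¹ * (a * (a⁻¹ * c))⁻¹ := by
      group
    rw [k]
    generalize a⁻¹ * c = C2 at hc3 ⊢
    simp only [map_mul, map_inv, map_one]
    exact comm_aux (by rw [one_mul, mul_one]) (by rw [one_mul, mul_one]) (hMa C2 hc3 b hb)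
  have hq : P⁻¹ * (b * a * b⁻¹ * a⁻¹) * P * (b * c * b⁻¹ * c⁻¹)⁻¹ ∈ Qs as := by
    rw [← hπ, map_mul, map_inv, e1, e2, mul_inv_cancel]
  have hq' := (inferInstance : (Qs as).Normal).conj_mem _ hq P
  have e3 : (b * a * b⁻¹ * a⁻¹) * (P * c * R)
      = P * (P⁻¹ * (b * a * b⁻¹ * a⁻¹) * P * (b * c * b⁻¹ * c⁻¹)⁻¹) * P⁻¹ *
        (P * ((b * g) * a * (b * g)⁻¹) * R) := by
    rw [hc]; group
  rw [e3]
  exact (hq' _).2 (h _)

include hn hM0 hab in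
theorem step_three' {as : List M} {a b : M} (ha : a ∈ as) (hb : b ∈ as) :
    b * a * b⁻¹ * a⁻¹ ∈ Qs as := by
  refine mem_Qs_of (step_three M0 hn hM0 hab ha hb) ?_
  have e : (b * a * b⁻¹ * a⁻¹)⁻¹ = a * b * a⁻¹ * b⁻¹ := by group
  rw [e]
  exact step_three M0 hn hM0 hab hb ha

end

/-- L2 -/
theorem conjProd_comm_mul {M : Type*} [Group M] (M0 : Subgroup M) (hn : M0.Normal)
    (hM0 : ∀ x ∈ M0, ∀ y ∈ M0, x * y = y * x) (hab : ∀ x y : M, x * y * x⁻¹ * y⁻¹ ∈ M0)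
    (as : List M) (N : Subgroup M) (hN : N = M0 ⊔ Subgroup.closure {a | a ∈ as})
    (x z : M) (hx : x ∈ conjProd as) (hz : z ∈ ⁅N, N⁆) : z * x ∈ conjProd as := by
  let π : M →* M ⧸ Qs as := QuotientGroup.mk' (Qs as)
  have hπ : ∀ z : M, π z = 1 ↔ z ∈ Qs as := fun z => QuotientGroup.eq_one_iff z
  have hcomm : ∀ u v : M, u * v * u⁻¹ * v⁻¹ ∈ Qs as → π u * π v = π v * π u := by
    intro u v huv
    have h1 := (hπ _).2 huv
    simp only [map_mul, map_inv] at h1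
    rwa [mul_inv_eq_one, mul_inv_eq_iff_eq_mul] at h1
  set U : Set M := (M0 : Set M) ∪ {a | a ∈ as} with hU
  have hNU : N = Subgroup.closure U := by
    rw [hN, hU, Subgroup.closure_union, Subgroup.closure_eq]
  have hUU : ∀ u ∈ U, ∀ v ∈ U, π u * π v = π v * π u := by
    rintro u (hu | hu) v (hv | hv)
    · rw [← map_mul, hM0 u hu v hv, map_mul]
    · exact (hcomm v u (step_two' M0 hn hM0 hab hv hu)).symm
    · exact hcomm u v (step_two' M0 hn hM0 hab hu hv)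
    · exact hcomm u v (step_three' M0 hn hM0 hab hv hu)
  have hcent : Subgroup.closure (π '' U) ≤ Subgroup.centralizer (π '' U) := by
    rw [Subgroup.closure_le]
    rintro _ ⟨u, hu, rfl⟩
    rw [SetLike.mem_coe, Subgroup.mem_centralizer_iff]
    rintro _ ⟨v, hv, rfl⟩
    exact hUU v hv u hu
  have hle : ⁅N, N⁆ ≤ Qs as := by
    rw [Subgroup.commutator_le]
    intro g1 hg1 g2 hg2
    rw [← hπ]
    have m1 : π g1 ∈ Subgroup.closure (π '' U) := by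
      rw [← MonoidHom.map_closure, ← hNU]
      exact Subgroup.mem_map_of_mem π hg1
    have m2 : π g2 ∈ Subgroup.closure (π '' U) := by
      rw [← MonoidHom.map_closure, ← hNU]
      exact Subgroup.mem_map_of_mem π hg2
    have h1 := Subgroup.closure_le_centralizer_centralizer (π '' U) m1
    have h2 := hcent m2
    have h3 := Subgroup.mem_centralizer_iff.1 h1 _ h2
    rw [commutatorElement_def]
    simp only [map_mul, map_inv]
    rw [← h3]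
    group
  exact (hle hz x).2 hx

end Pool.Agent.H51MB
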