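import Pool.Agent.H18PC.Local

set_option autoImplicit false

/-!
Bi-invariant metrics with bounded ratio: adapted from `H18PC/Local.lean` (helper18).
-/

namespace Pool.Agent.H51MB

open Pool.Agent.H18PC

/-- products of at most `k` conjugacy classes are closed in the profinite topology -/
def PCk (k : ℕ) (G : Type*) [Group G] : Prop :=
  ∀ as : List G, as.length ≤ k → ∀ x : G, x ∉ conjProd as →
    ∃ K : Subgroup G, K.Normal ∧ K.FiniteIndex ∧ ∀ κ ∈ K, x * κ ∉ conjProd as

theorem exists_quot_k {G : Type*} [Group G] {k : ℕ} (hPC : PCk k G) {ρ : G → G → ℝ}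
    (hρ : H71MU.BiMetric G ρ) (hr : ∀ x y : G, x ≠ 1 → y ≠ 1 → ρ x 1 ≤ (k + 1) * ρ y 1)
    (A : Finset G) (hA1 : (1 : G) ∉ A) (hAinv : ∀ a ∈ A, a⁻¹ ∈ A) :
    ∃ (K : Subgroup G) (_ : K.Normal) (_ : K.FiniteIndex) (dF : G ⧸ K → G ⧸ K → ℝ),
      H71MU.BiMetric (G ⧸ K) dF ∧
      ∀ a ∈ A, dF (QuotientGroup.mk a) 1 = ρ a 1 := by
  classical
  set l : G → ℝ := fun a => ρ a 1 with hl
  have hl0 : ∀ a ∈ A, 0 ≤ l a := fun a _ => hρ.nonneg a 1
  have hlpos : ∀ a ∈ A, 0 < l a := by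
    intro a ha
    rcases lt_or_eq_of_le (hl0 a ha) with h | h
    · exact h
    · exfalso
      have := (hρ.eq_zero_iff a 1).1 h.symm
      subst this
      exact hA1 ha
  have hne1 : ∀ a ∈ A, a ≠ 1 := fun a ha h1 => hA1 (h1 ▸ ha)
  obtain ⟨δ, hδ0, hδ, hrδ⟩ : ∃ δ : ℝ, 0 < δ ∧ (∀ a ∈ A, δ ≤ l a) ∧
      ∀ a ∈ A, l a ≤ (k + 1) * δ := by
    rcases A.eq_empty_or_nonempty with h | h
    · exact ⟨1, one_pos, by simp [h], by simp [h]⟩
    · obtain ⟨a, ha, hmin⟩ := A.exists_min_image l h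
      exact ⟨l a, hlpos a ha, hmin, fun b hb => hr b a (hne1 b hb) (hne1 a ha)⟩
  set D : ℝ := δ + ∑ a ∈ A, l a with hDdef
  have hsum0 : 0 ≤ ∑ a ∈ A, l a := Finset.sum_nonneg hl0
  have hδD : δ ≤ D := by linarith
  have hD : 0 ≤ D := by linarith
  have hlD : ∀ a ∈ A, l a ≤ D := by
    intro a ha
    have := Finset.single_le_sum hl0 ha
    linarith
  -- finitely many lists
  have hfin : Finite {as : List G // as.length ≤ k ∧ ∀ a ∈ as, a ∈ A} := by
    have h1 : {as : List A | as.length ≤ k}.Finite := List.finite_length_le A k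
    have h2 : {as : List G | as.length ≤ k ∧ ∀ a ∈ as, a ∈ A} ⊆
        (fun as : List A => as.map (fun a => (a : G))) '' {as : List A | as.length ≤ k} := by
      rintro as ⟨h3, h4⟩
      refine ⟨as.attachWith _ h4, ?_, ?_⟩
      · simpa using h3
      · simp
    exact (h1.image _).subset h2
  have hex : ∀ p : {as : List G // as.length ≤ k ∧ ∀ a ∈ as, a ∈ A} × A,
      ∃ K : Subgroup G, K.Normal ∧ K.FiniteIndex ∧
        ((p.2 : G) ∉ conjProd p.1.1 → ∀ k ∈ K, (p.2 : G) * k ∉ conjProd p.1.1) := by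
    intro p
    by_cases h : (p.2 : G) ∈ conjProd p.1.1
    · exact ⟨⊤, inferInstance, inferInstance, fun h' => absurd h h'⟩
    · obtain ⟨K, h1, h2, h3⟩ := hPC p.1.1 p.1.2.1 p.2 h
      exact ⟨K, h1, h2, fun _ => h3⟩
  choose K hKn hKf hK using hex
  have hKKn : (⨅ p, K p).Normal := Subgroup.normal_iInf_normal hKn
  have hKKf : (⨅ p, K p).FiniteIndex := Subgroup.finiteIndex_iInf hKf
  set KK := ⨅ p, K p with hKK
  have hlinv : ∀ a, l a⁻¹ = l a := fun a => hρ.inv_one a
  have hlen : ∀ a ∈ A, len A l D KK (QuotientGroup.mk a) = l a := by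
    intro a ha
    apply le_antisymm
    · apply len_le hl0 hD
      refine Or.inr ⟨[a], by simpa using ha, ⟨1 * a * 1⁻¹, conjProd_single a 1, by simp⟩, by simp⟩
    · apply le_csInf (costSet_nonempty KK _)
      rintro s (rfl | ⟨as, has, ⟨z, hz, hza⟩, rfl⟩)
      · exact hlD a ha
      · by_contra hlt
        push Not at hlt
        -- the length is bounded
        have hlen1 : ∀ bs : List G, (∀ b ∈ bs, b ∈ A) → δ * bs.length ≤ (bs.map l).sum := by
          intro bs
          induction bs with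
          | nil => intro _; simp
          | cons b bs ih =>
            intro h
            rw [List.map_cons, List.sum_cons, List.length_cons]
            push_cast
            have h1 := hδ b (h b (by simp))
            have h2 := ih (fun c hc => h c (by simp [hc]))
            linarith
        have hlen2 : (as.length : ℝ) < (k : ℝ) + 1 := by
          have h1 := hlen1 as has
          have h2 : δ * as.length < δ * ((k : ℝ) + 1) := by
            have := hrδ a ha
            linarith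
          exact lt_of_mul_lt_mul_left h2 hδ0.le
        have hlen3 : as.length ≤ k := by
          have : as.length < k + 1 := by exact_mod_cast hlen2
          omega
        by_cases hmem : a ∈ conjProd as
        · have := len_conjProd hρ hmem
          linarith
        · have h4 : a⁻¹ * z ∈ KK := QuotientGroup.eq.1 hza.symm
          have h5 : a⁻¹ * z ∈ K (⟨as, hlen3, has⟩, ⟨a, ha⟩) := (Subgroup.mem_iInf.1 h4) _
          have h6 := hK (⟨as, hlen3, has⟩, ⟨a, ha⟩) hmem _ h5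
          apply h6
          show a * (a⁻¹ * z) ∈ conjProd as
          have h7 : a * (a⁻¹ * z) = z := by group
          rw [h7]; exact hz
  refine ⟨KK, hKKn, hKKf, fun u v => len A l D KK (u * v⁻¹), ?_, ?_⟩
  · refine ⟨?_, ?_, ?_, ?_, ?_⟩
    · intro u v
      constructor
      · intro h
        by_contra hne
        have h1 : u * v⁻¹ ≠ 1 := fun h2 => hne (mul_inv_eq_one.1 h2)
        have h2 := len_pos hl0 hD KK hδ hδD h1
        linarith
      · rintro rfl
        rw [mul_inv_cancel]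
        exact len_one hl0 hD KK
    · intro u v
      have h1 : v * u⁻¹ = (u * v⁻¹)⁻¹ := by group
      rw [h1, len_inv hl0 hD KK hAinv hlinv]
    · intro u v w
      have h1 : u * w⁻¹ = (u * v⁻¹) * (v * w⁻¹) := by group
      rw [h1]
      exact len_mul hl0 hD KK _ _
    · intro g u v
      have h1 : g * u * (g * v)⁻¹ = g * (u * v⁻¹) * g⁻¹ := by group
      rw [h1, len_conj hl0 hD KK]
    · intro g u v
      have h1 : u * g * (v * g)⁻¹ = u * v⁻¹ := by group
      rw [h1]
  · intro a ha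
    show len A l D KK (QuotientGroup.mk a * 1⁻¹) = ρ a 1
    rw [inv_one, mul_one]
    exact hlen a ha

/-- exact finite models of finite subsets -/
theorem local_of_PCk.{u} {H : Type u} [Group H] {k : ℕ} {ρ : H → H → ℝ}
    (hρ : H71MU.BiMetric H ρ) (hr : ∀ x y : H, x ≠ 1 → y ≠ 1 → ρ x 1 ≤ (k + 1) * ρ y 1)
    (hPC : ∀ S : Finset H, ∃ G : Subgroup H, (∀ s ∈ S, s ∈ G) ∧ PCk k G) (B : Finset H) :
    ∃ (F : Type u) (_ : Group F) (_ : Finite F) (dF : F → F → ℝ)
      (_ : H71MU.BiMetric F dF) (f : H → F),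
      (∀ x, dF (f x) 1 ≤ ρ x 1) ∧
      (∀ x ∈ B, ∀ y ∈ B, x * y ∈ B → f (x * y) = f x * f y) ∧
      (∀ x ∈ B, ∀ y ∈ B, dF (f x) (f y) = ρ x y) := by
  classical
  obtain ⟨G, hBG, hG⟩ := hPC B
  have hρG : H71MU.BiMetric G (fun x y => ρ (x : H) (y : H)) := by
    refine ⟨?_, ?_, ?_, ?_, ?_⟩
    · intro a b
      rw [hρ.eq_zero_iff]
      exact Subtype.ext_iff.symm
    · intro a b; exact hρ.symm _ _
    · intro a b c; exact hρ.triangle _ _ _
    · intro g a b; exact hρ.left _ _ _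
    · intro g a b; exact hρ.right _ _ _
  have hrG : ∀ x y : G, x ≠ 1 → y ≠ 1 → ρ (x : H) ((1 : G) : H) ≤ (k + 1) * ρ (y : H) ((1 : G) : H) := by
    intro x y hx hy
    exact hr x y (fun h => hx (Subtype.ext h)) (fun h => hy (Subtype.ext h))
  -- the finite set
  let BG : Finset G := insert 1 (B.attach.image (fun b => (⟨b.1, hBG b.1 b.2⟩ : G)))
  let A : Finset G := (Finset.image₂ (fun x y => x * y⁻¹) BG BG).erase 1
  have hBGmem : ∀ b (hb : b ∈ B), (⟨b, hBG b hb⟩ : G) ∈ BG := by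
    intro b hb
    apply Finset.mem_insert_of_mem
    rw [Finset.mem_image]
    exact ⟨⟨b, hb⟩, Finset.mem_attach _ _, rfl⟩
  have hA1 : (1 : G) ∉ A := Finset.notMem_erase _ _
  have hAmem : ∀ x y : G, x ∈ BG → y ∈ BG → x ≠ y → x * y⁻¹ ∈ A := by
    intro x y hx hy hxy
    rw [Finset.mem_erase]
    refine ⟨fun h => hxy (mul_inv_eq_one.1 h), ?_⟩
    exact Finset.mem_image₂_of_mem hx hy
  have hAinv : ∀ a ∈ A, a⁻¹ ∈ A := by
    intro a ha
    rw [Finset.mem_erase] at ha
    obtain ⟨h1, h2⟩ := ha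
    obtain ⟨x, hx, y, hy, rfl⟩ := Finset.mem_image₂.1 h2
    have h3 : (x * y⁻¹)⁻¹ = y * x⁻¹ := by group
    rw [h3]
    apply hAmem y x hy hx
    rintro rfl
    exact h1 (by group)
  obtain ⟨K, hKn, hKf, dF, hdF, hdA⟩ := exists_quot_k hG hρG hrG A hA1 hAinv
  refine ⟨G ⧸ K, inferInstance, inferInstance, dF, hdF,
    fun x => if hx : x ∈ B then (QuotientGroup.mk (⟨x, hBG x hx⟩ : G)) else 1, ?_, ?_, ?_⟩
  · intro x
    by_cases hx : x ∈ B
    · simp only [dif_pos hx]
      by_cases h1 : x = 1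
      · subst h1
        have h2 : (QuotientGroup.mk (⟨1, hBG 1 hx⟩ : G) : G ⧸ K) = 1 := rfl
        rw [h2, hdF.self]
        exact hρ.nonneg _ _
      · have h2 : (⟨x, hBG x hx⟩ : G) ∈ A := by
          have := hAmem ⟨x, hBG x hx⟩ 1 (hBGmem x hx) (Finset.mem_insert_self _ _)
            (fun h => h1 (Subtype.ext_iff.1 h))
          simpa using this
        rw [hdA _ h2]
        exact le_refl _
    · simp only [dif_neg hx]
      rw [hdF.self]
      exact hρ.nonneg _ _
  · intro x hx y hy hxy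
    simp only [dif_pos hx, dif_pos hy, dif_pos hxy]
    rfl
  · intro x hx y hy
    simp only [dif_pos hx, dif_pos hy]
    by_cases hxy : x = y
    · subst hxy
      rw [hdF.self, hρ.self]
    · have h1 := hAmem ⟨x, hBG x hx⟩ ⟨y, hBG y hy⟩ (hBGmem x hx) (hBGmem y hy)
        (fun h => hxy (Subtype.ext_iff.1 h))
      have h2 := hdA _ h1
      have h3 := hdF.right (QuotientGroup.mk (⟨y, hBG y hy⟩ : G))⁻¹
        (QuotientGroup.mk (⟨x, hBG x hx⟩ : G)) (QuotientGroup.mk (⟨y, hBG y hy⟩ : G))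
      rw [mul_inv_cancel] at h3
      rw [← h3]
      have h4 : (QuotientGroup.mk (⟨x, hBG x hx⟩ : G) : G ⧸ K) *
          (QuotientGroup.mk (⟨y, hBG y hy⟩ : G))⁻¹
          = QuotientGroup.mk ((⟨x, hBG x hx⟩ : G) * (⟨y, hBG y hy⟩ : G)⁻¹) := rfl
      rw [h4, h2]
      show ρ (x * y⁻¹) 1 = ρ x y
      have h5 := hρ.right y (x * y⁻¹) 1
      rw [inv_mul_cancel_right, one_mul] at h5
      exact h5.symm

theorem embeds_of_PCk.{u} {H : Type u} [Group H] {k : ℕ} {ρ : H → H → ℝ}
    (hρ : H71MU.BiMetric H ρ) (hr : ∀ x y : H, x ≠ 1 → y ≠ 1 → ρ x 1 ≤ (k + 1) * ρ y 1)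
    (hPC : ∀ S : Finset H, ∃ G : Subgroup H, (∀ s ∈ S, s ∈ G) ∧ PCk k G) :
    H71MU.EmbedsInFiniteUltraproduct H ρ :=
  H71MU.embeds_of_local hρ (local_of_PCk hρ hr hPC)

end Pool.Agent.H51MB
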