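import Pool.Agent.H96MB.Defs
import Pool.Agent.H93RF.RF

set_option autoImplicit false

namespace Pool.Agent.H51MB

open Pool.Agent.H96MB Filter

variable {T ι : Type*} [AddCommGroup T]

/-- finite levels -/
structure Idx (S : AddSubgroup T) where
  K : AddSubgroup T
  m : ℕ
  hS : S ≤ K
  hK : K.FiniteIndex
  hm : 0 < m

instance (S : AddSubgroup T) : Preorder (Idx S) where
  le x y := y.K ≤ x.K ∧ x.m ∣ y.m
  le_refl x := ⟨le_refl _, dvd_refl _⟩
  le_trans x y z h1 h2 := ⟨h2.1.trans h1.1, h1.2.trans h2.2⟩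

instance (S : AddSubgroup T) : IsDirectedOrder (Idx S) where
  directed x y :=
    ⟨⟨x.K ⊓ y.K, x.m * y.m, le_inf x.hS y.hS, by
      have := x.hK; have := y.hK; infer_instance, Nat.mul_pos x.hm y.hm⟩,
      ⟨inf_le_left, Dvd.intro _ rfl⟩, ⟨inf_le_right, Dvd.intro_left _ rfl⟩⟩

instance (S : AddSubgroup T) : Nonempty (Idx S) :=
  ⟨⟨⊤, 1, le_top, inferInstance, Nat.one_pos⟩⟩

/-- the ultrafilter -/
noncomputable def UF (S : AddSubgroup T) : Ultrafilter (Idx S) := Ultrafilter.of atTop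

theorem ev_ge (S : AddSubgroup T) (x0 : Idx S) : ∀ᶠ x in (UF S : Filter (Idx S)), x0 ≤ x :=
  Ultrafilter.of_le atTop (eventually_ge_atTop x0)

/-- moving points which are eventually in `K` -/
noncomputable def N (S : AddSubgroup T) : AddSubgroup (Idx S → T) where
  carrier := {f | ∀ᶠ x in (UF S : Filter (Idx S)), f x ∈ x.K}
  zero_mem' := Eventually.of_forall fun x => x.K.zero_mem
  add_mem' := fun {f g} hf hg => by
    filter_upwards [hf, hg] with x h1 h2 using x.K.add_mem h1 h2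
  neg_mem' := fun {f} hf => by
    filter_upwards [hf] with x h1 using x.K.neg_mem h1

theorem mem_N {S : AddSubgroup T} {f : Idx S → T} :
    f ∈ N S ↔ ∀ᶠ x in (UF S : Filter (Idx S)), f x ∈ x.K := Iff.rfl

/-- separation of points -/
theorem exists_K [AddGroup.FG T] (S : AddSubgroup T) {t : T} (ht : t ∉ S) :
    ∃ x : Idx S, t ∉ x.K := by
  have hfg : Group.FG (Multiplicative T) := inferInstance
  obtain ⟨K, -, hK, hSK, hy⟩ := Pool.Agent.H93RF.rf (G := Multiplicative T)
    (fun a b c => by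
      have : a * b * a⁻¹ * b⁻¹ = 1 := by rw [mul_comm a b]; group
      rw [this]; simp) (AddSubgroup.toSubgroup S) (Multiplicative.ofAdd t) ht
  refine ⟨⟨AddSubgroup.toSubgroup.symm K, 1, ?_, ?_, Nat.one_pos⟩, ?_⟩
  · intro s hs
    exact hSK (show Multiplicative.ofAdd s ∈ AddSubgroup.toSubgroup S from hs)
  · constructor
    have := hK.index_ne_zero
    exact this
  · exact hy

theorem const_mem_N [AddGroup.FG T] {S : AddSubgroup T} {t : T} :
    (fun _ => t) ∈ N S ↔ t ∈ S := by
  constructor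
  · intro h
    by_contra ht
    obtain ⟨x0, hx0⟩ := exists_K S ht
    obtain ⟨x, h1, h2⟩ := ((mem_N.1 h).and (ev_ge S x0)).exists
    exact hx0 (h2.1 h1)
  · intro h
    exact mem_N.2 (Eventually.of_forall fun x => x.hS h)

/-- the equivariant map -/
theorem exists_theta [AddGroup.FG T] (S : AddSubgroup T) :
    ∃ θ : ((Idx S → T) ⧸ N S) → T ⧸ S,
      (∀ (g : (Idx S → T) ⧸ N S) (t : T),
        θ (g + QuotientAddGroup.mk (fun _ => t)) = θ g + QuotientAddGroup.mk t) ∧ θ 0 = 0 := by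
  classical
  let c : T →+ (Idx S → T) ⧸ N S :=
    { toFun := fun t => QuotientAddGroup.mk (fun _ => t)
      map_zero' := rfl
      map_add' := fun a b => rfl }
  have hc : ∀ t, c t = 0 ↔ t ∈ S := fun t => by
    show (QuotientAddGroup.mk (fun _ => t) : (Idx S → T) ⧸ N S) = 0 ↔ _
    rw [QuotientAddGroup.eq_zero_iff]
    exact const_mem_N
  have hex : ∀ g : (Idx S → T) ⧸ N S, ∃ t : T,
      c t = g - Quotient.out (QuotientAddGroup.mk g : ((Idx S → T) ⧸ N S) ⧸ c.range) := by
    intro g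
    have h1 : (QuotientAddGroup.mk (Quotient.out (QuotientAddGroup.mk g :
        ((Idx S → T) ⧸ N S) ⧸ c.range)) : ((Idx S → T) ⧸ N S) ⧸ c.range)
        = QuotientAddGroup.mk g := Quotient.out_eq _
    have h2 := QuotientAddGroup.eq.1 h1
    rw [neg_add_eq_sub] at h2
    obtain ⟨t, ht⟩ := h2
    exact ⟨t, ht⟩
  choose τ hτ using hex
  have key : ∀ (g : (Idx S → T) ⧸ N S) (t : T),
      (QuotientAddGroup.mk (τ (g + c t)) : T ⧸ S) = QuotientAddGroup.mk (τ g) + QuotientAddGroup.mk t := by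
    intro g t
    have e : (QuotientAddGroup.mk (g + c t) : ((Idx S → T) ⧸ N S) ⧸ c.range)
        = QuotientAddGroup.mk g := by
      rw [QuotientAddGroup.eq]
      refine ⟨-t, ?_⟩
      rw [map_neg]
      abel
    have h1 := hτ (g + c t)
    rw [e] at h1
    have h2 := hτ g
    have h3 : c (τ (g + c t) - (τ g + t)) = 0 := by
      rw [map_sub, map_add, h1, h2]
      abel
    have h4 := (hc _).1 h3
    have h5 : (QuotientAddGroup.mk (τ (g + c t) - (τ g + t)) : T ⧸ S) = 0 :=
      (QuotientAddGroup.eq_zero_iff _).2 h4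
    rw [QuotientAddGroup.mk_sub, QuotientAddGroup.mk_add, sub_eq_zero] at h5
    exact h5
  refine ⟨fun g => QuotientAddGroup.mk (τ g) - QuotientAddGroup.mk (τ 0), ?_, ?_⟩
  · intro g t
    show QuotientAddGroup.mk (τ (g + c t)) - QuotientAddGroup.mk (τ 0) = _
    rw [key]
    exact add_sub_right_comm _ _ _
  · simp

/-- value at a level -/
noncomputable def ev {S : AddSubgroup T} (x : Idx S) :
    ((Idx S → T) × ι →₀ ℤ) →+ (T × ι →₀ ℤ) :=
  Finsupp.mapDomain.addMonoidHom (fun p : (Idx S → T) × ι => (p.1 x, p.2))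

/-- constant moving points -/
noncomputable def cst (S : AddSubgroup T) :
    (T × ι →₀ ℤ) →+ ((Idx S → T) × ι →₀ ℤ) :=
  Finsupp.mapDomain.addMonoidHom (fun p : T × ι => ((fun _ => p.1 : Idx S → T), p.2))

theorem lift_comb {S : AddSubgroup T} (us : List (T × ι →₀ ℤ)) :
    ∀ c : Idx S → (T × ι →₀ ℤ), (∀ x, c x ∈ comb us) →
      ∃ y ∈ comb (us.map (cst S)), ∀ x, ev x y = c x := by
  induction us with
  | nil =>
    intro c hc
    refine ⟨0, rfl, fun x => ?_⟩
    rw [map_zero]
    exact (hc x).symm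
  | cons u us ih =>
    intro c hc
    choose s z hz hcz using hc
    obtain ⟨y', hy', hy2⟩ := ih z hz
    refine ⟨shift s (cst S u) + y', ⟨s, y', hy', rfl⟩, fun x => ?_⟩
    rw [map_add, hy2, hcz x]
    congr 1
    simp only [ev, shift, cst, Finsupp.mapDomain.addMonoidHom_apply]
    rw [← Finsupp.mapDomain_comp, ← Finsupp.mapDomain_comp]
    rfl

/-- the key step: equality at all levels implies equality in the limit -/
theorem limit_zero {S : AddSubgroup T} (z : (Idx S → T) × ι →₀ ℤ)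
    (h : ∀ x : Idx S, ∀ q, (x.m : ℤ) ∣ push x.K (ev x z) q) :
    Finsupp.mapDomain (fun p : (Idx S → T) × ι =>
      ((QuotientAddGroup.mk p.1 : (Idx S → T) ⧸ N S), p.2)) z = 0 := by
  classical
  set ψ : (x : Idx S) → (Idx S → T) × ι → (T ⧸ x.K) × ι :=
    fun x p => ((QuotientAddGroup.mk (p.1 x) : T ⧸ x.K), p.2) with hψ
  set π : (Idx S → T) × ι → ((Idx S → T) ⧸ N S) × ι :=
    fun p => ((QuotientAddGroup.mk p.1 : (Idx S → T) ⧸ N S), p.2) with hπ
  have hpush : ∀ x : Idx S, push x.K (ev x z) = Finsupp.mapDomain (ψ x) z := by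
    intro x
    simp only [ev, push, Finsupp.mapDomain.addMonoidHom_apply]
    rw [← Finsupp.mapDomain_comp]
    rfl
  have hpair : ∀ p p' : (Idx S → T) × ι,
      ∀ᶠ x in (UF S : Filter (Idx S)), (ψ x p = ψ x p' ↔ π p = π p') := by
    intro p p'
    by_cases h2 : p.2 = p'.2
    · by_cases h1 : -p.1 + p'.1 ∈ N S
      · have h3 : π p = π p' := Prod.ext (QuotientAddGroup.eq.2 h1) h2
        filter_upwards [mem_N.1 h1] with x hx
        refine ⟨fun _ => h3, fun _ => Prod.ext (QuotientAddGroup.eq.2 hx) h2⟩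
      · have h3 : π p ≠ π p' := fun e => h1 (QuotientAddGroup.eq.1 (congrArg Prod.fst e))
        have h4 : ∀ᶠ x in (UF S : Filter (Idx S)), (-p.1 + p'.1) x ∉ x.K :=
          (Ultrafilter.eventually_not).2 h1
        filter_upwards [h4] with x hx
        refine ⟨fun e => absurd (QuotientAddGroup.eq.1 (congrArg Prod.fst e)) hx,
          fun e => absurd e h3⟩
    · refine Eventually.of_forall fun x => ⟨fun e => absurd (congrArg Prod.snd e) h2,
        fun e => absurd (congrArg Prod.snd e) h2⟩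
  have hall : ∀ᶠ x in (UF S : Filter (Idx S)), ∀ p ∈ z.support, ∀ p' ∈ z.support,
      (ψ x p = ψ x p' ↔ π p = π p') := by
    rw [Filter.eventually_all_finset]
    intro p _
    rw [Filter.eventually_all_finset]
    intro p' _
    exact hpair p p'
  set M : ℕ := ∑ p ∈ z.support, (z p).natAbs with hM
  obtain ⟨x, hx, hge⟩ := (hall.and (ev_ge S ⟨⊤, M + 1, le_top, inferInstance, Nat.succ_pos M⟩)).exists
  have hxm : M < x.m := Nat.lt_of_lt_of_le (Nat.lt_succ_self M) (Nat.le_of_dvd x.hm hge.2)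
  ext g
  rw [Finsupp.coe_zero, Pi.zero_apply]
  have happ : ∀ {β : Type _} (f : (Idx S → T) × ι → β) (b : β),
      Finsupp.mapDomain f z b = ∑ p ∈ z.support, if f p = b then z p else 0 := by
    intro β f b
    rw [Finsupp.mapDomain, Finsupp.sum, Finsupp.finsetSum_apply]
    refine Finset.sum_congr rfl fun p _ => ?_
    rw [Finsupp.single_apply]
  rw [happ π g]
  by_cases hg : ∃ p0 ∈ z.support, π p0 = g
  · obtain ⟨p0, hp0, rfl⟩ := hg
    have e1 : (∑ p ∈ z.support, if π p = π p0 then z p else 0)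
        = Finsupp.mapDomain (ψ x) z (ψ x p0) := by
      have happ2 : Finsupp.mapDomain (ψ x) z (ψ x p0)
          = ∑ p ∈ z.support, if ψ x p = ψ x p0 then z p else 0 := by
        rw [Finsupp.mapDomain, Finsupp.sum, Finsupp.finsetSum_apply]
        refine Finset.sum_congr rfl fun p _ => ?_
        rw [Finsupp.single_apply]
      rw [happ2]
      refine Finset.sum_congr rfl fun p hp => ?_
      simp only [hx p hp p0 hp0]
    have hdvd : (x.m : ℤ) ∣ ∑ p ∈ z.support, if π p = π p0 then z p else 0 := by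
      rw [e1, ← hpush]
      exact h x _
    have hlt : |∑ p ∈ z.support, if π p = π p0 then z p else 0| < (x.m : ℤ) := by
      refine lt_of_le_of_lt (Finset.abs_sum_le_sum_abs _ _) ?_
      refine lt_of_le_of_lt (b := ((M : ℕ) : ℤ)) ?_ (by exact_mod_cast hxm)
      rw [hM]
      push_cast
      refine Finset.sum_le_sum fun p _ => ?_
      split_ifs
      · exact le_refl _
      · simp
    convert Int.eq_zero_of_abs_lt_dvd hdvd hlt
  · refine Finset.sum_eq_zero fun p hp => ?_
    rw [if_neg]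
    exact fun e => hg ⟨p, hp, e⟩

theorem down_comb {S : AddSubgroup T} {θ : ((Idx S → T) ⧸ N S) → T ⧸ S}
    (hθ : ∀ (g : (Idx S → T) ⧸ N S) (t : T),
        θ (g + QuotientAddGroup.mk (fun _ => t)) = θ g + QuotientAddGroup.mk t)
    (us : List (T × ι →₀ ℤ)) :
    ∀ y ∈ comb (us.map (cst S)), ∃ c ∈ comb us,
      Finsupp.mapDomain (fun p : (Idx S → T) × ι =>
        (θ (QuotientAddGroup.mk p.1), p.2)) y = push S c := by
  induction us with
  | nil =>
    intro y hy
    have hy0 : y = 0 := hy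
    subst hy0
    exact ⟨0, rfl, by rw [map_zero, Finsupp.mapDomain_zero]⟩
  | cons u us ih =>
    rintro y ⟨s, y', hy', rfl⟩
    obtain ⟨c', hc', hcc⟩ := ih y' hy'
    obtain ⟨t, ht⟩ := QuotientAddGroup.mk_surjective (θ (QuotientAddGroup.mk s))
    refine ⟨shift t u + c', ⟨t, c', hc', rfl⟩, ?_⟩
    rw [Finsupp.mapDomain_add, hcc, map_add]
    congr 1
    simp only [shift, cst, push, Finsupp.mapDomain.addMonoidHom_apply]
    rw [← Finsupp.mapDomain_comp, ← Finsupp.mapDomain_comp, ← Finsupp.mapDomain_comp]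
    congr 1
    funext p
    simp only [Function.comp_apply]
    refine Prod.ext ?_ rfl
    show θ (QuotientAddGroup.mk (s + fun _ => p.1)) = QuotientAddGroup.mk (t + p.1)
    rw [QuotientAddGroup.mk_add, hθ, QuotientAddGroup.mk_add, ht]

/-- P3 (separation) -/
theorem separation {T ι : Type*} [AddCommGroup T] [AddGroup.FG T] (S : AddSubgroup T)
    (us : List (T × ι →₀ ℤ)) (v : T × ι →₀ ℤ)
    (h : ∀ K : AddSubgroup T, S ≤ K → K.FiniteIndex → ∀ m : ℕ, 0 < m →
      ∃ c ∈ comb us, ∀ q, (m : ℤ) ∣ push K (v - c) q) :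
    ∃ c ∈ comb us, push S (v - c) = 0 := by
  have h' : ∀ x : Idx S, ∃ c ∈ comb us, ∀ q, (x.m : ℤ) ∣ push x.K (v - c) q :=
    fun x => h x.K x.hS x.hK x.m x.hm
  choose c hc hcd using h'
  obtain ⟨y, hy, hyc⟩ := lift_comb us c hc
  obtain ⟨θ, hθ, hθ0⟩ := exists_theta S
  obtain ⟨d, hd, hd2⟩ := down_comb hθ us y hy
  refine ⟨d, hd, ?_⟩
  have hz := limit_zero (S := S) (cst S v - y) (fun x q => by
    have e : ev x (cst S v - y) = v - c x := by
      rw [map_sub, hyc]
      congr 1
      simp only [ev, cst, Finsupp.mapDomain.addMonoidHom_apply]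
      rw [← Finsupp.mapDomain_comp]
      exact Finsupp.mapDomain_id
    rw [e]
    exact hcd x q)
  have h2 := congrArg (Finsupp.mapDomain (fun p : ((Idx S → T) ⧸ N S) × ι => (θ p.1, p.2))) hz
  rw [← Finsupp.mapDomain_comp, Finsupp.mapDomain_zero] at h2
  have h3 : Finsupp.mapDomain (fun p : (Idx S → T) × ι =>
      (θ (QuotientAddGroup.mk p.1), p.2)) (cst S v - y) = 0 := h2
  have h4 := (Finsupp.mapDomain.addMonoidHom (M := ℤ) (fun p : (Idx S → T) × ι =>
      (θ (QuotientAddGroup.mk p.1), p.2))).map_sub (cst S v) y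
  simp only [Finsupp.mapDomain.addMonoidHom_apply] at h4
  rw [h4, hd2, sub_eq_zero] at h3
  rw [map_sub, sub_eq_zero, ← h3]
  simp only [cst, push, Finsupp.mapDomain.addMonoidHom_apply]
  rw [← Finsupp.mapDomain_comp]
  congr 1
  funext p
  refine Prod.ext ?_ rfl
  show QuotientAddGroup.mk p.1 = θ (QuotientAddGroup.mk (fun _ => p.1))
  have h5 := hθ 0 p.1
  rw [zero_add, hθ0, zero_add] at h5
  exact h5.symm

end Pool.Agent.H51MB
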